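import Mathlib

namespace Pool.Agent.Results.MP_975ca8_an.EvenDelay

lemma two (l : ℕ) (hl : 0 < l) (he : Even l) (B : ℕ → ℝ) (h0 : ∀ n, 0 ≤ B n)
    (hp : ∀ n, B (n + 2) = B n) (hne : B 0 ≠ B 1) :
    ∃ x : ℕ → ℝ, (∀ n, 0 < x n) ∧ (∀ n, x (n + l + 1) = 1 / (B n * x (n + l) + x n)) ∧
      ¬ ∃ M, ∀ n, x n ≤ M := by
  obtain ⟨r, rfl⟩ := he
  have hB : ∀ j, B (2 * j) = B 0 ∧ B (2 * j + 1) = B 1 := by
    intro j
    induction j with
    | zero => simp
    | succ k ih =>
      rw [show 2 * (k + 1) = 2 * k + 2 by ring, show 2 * k + 2 + 1 = 2 * k + 1 + 2 by ring, hp, hp]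
      exact ih
  set a := B 0
  set b := B 1
  have a0 : 0 ≤ a := h0 0
  have b0 : 0 ≤ b := h0 1
  obtain ⟨t, ht, hf⟩ : (0 : ℝ) ∈ (fun t : ℝ => t ^ (r + 1) * (b + t ^ r) - a * t ^ r - 1) ''
      Set.Icc 0 (a + 2) := by
    refine intermediate_value_Icc (by linarith) (by fun_prop) ⟨?_, ?_⟩
    · have : r ≠ 0 := by omega
      simp [this]
    · have h1 : (1 : ℝ) ≤ (a + 2) ^ r := one_le_pow₀ (by linarith)
      have h2 : (1 : ℝ) ≤ b + (a + 2) ^ r := by linarith
      have h3 : 0 ≤ (a + 2) ^ (r + 1) := by positivity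
      have h4 := mul_le_mul_of_nonneg_left h2 h3
      rw [pow_succ] at h4 ⊢
      nlinarith
  simp only at hf
  have t0 : 0 < t := ht.1.lt_of_ne fun h => by
    have : r ≠ 0 := by omega
    rw [← h] at hf
    simp [this] at hf
  have t1 : t ≠ 1 := fun h => hne (by rw [h] at hf; simp at hf; linarith)
  have tr : 0 < t ^ r := pow_pos t0 r
  set c := t ^ r / (a * t ^ r + 1) with hc
  have c0 : 0 < c := by positivity
  have hd : a * t ^ r + 1 = t ^ (r + 1) * (b + t ^ r) := by linarith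
  let x : ℕ → ℝ := fun n => if n % 2 = 0 then t ^ (n / 2) else c / t ^ (n / 2)
  have xe : ∀ j, x (2 * j) = t ^ j := fun j => by simp [x]
  have xo : ∀ j, x (2 * j + 1) = c / t ^ j := fun j => by
    simp only [x]
    rw [if_neg (by omega), show (2 * j + 1) / 2 = j by omega]
  refine ⟨x, fun n => ?_, fun n => ?_, ?_⟩
  · simp only [x]; split_ifs <;> positivity
  · obtain ⟨j, rfl | rfl⟩ := Nat.even_or_odd' n
    · rw [show 2 * j + (r + r) = 2 * (j + r) by ring, xo, xe, xe, (hB j).1, hc, pow_add]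
      have := pow_pos t0 j
      field_simp
    · rw [show 2 * j + 1 + (r + r) + 1 = 2 * (j + r + 1) by ring,
        show 2 * j + 1 + (r + r) = 2 * (j + r) + 1 by ring, xo, xe, xo, (hB j).2, hc, hd,
        pow_succ, pow_add, pow_succ]
      have := pow_pos t0 j
      have : 0 < b + t ^ r := by positivity
      field_simp
  · rintro ⟨M, hM⟩
    rcases t1.lt_or_gt with h | h
    · have M0 : 0 < M := lt_of_lt_of_le (by rw [show (0 : ℕ) = 2 * 0 from rfl, xe]; simp) (hM 0)
      obtain ⟨j, hj⟩ := exists_pow_lt_of_lt_one (div_pos c0 M0) h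
      have := hM (2 * j + 1)
      rw [xo, div_le_iff₀ (pow_pos t0 j)] at this
      rw [lt_div_iff₀ M0] at hj
      linarith
    · obtain ⟨j, hj⟩ := pow_unbounded_of_one_lt M h
      have := hM (2 * j)
      rw [xe] at this
      linarith

lemma prod (k l : ℕ) (C : ℕ → ℝ) (h0 : ∀ n, 0 ≤ C n) (hp : ∀ n, C (n + k) = C n) (i : ℕ)
    (hi : ∀ j, 0 < C (i + (l + 2) * j))
    (hP : ∏ j ∈ Finset.range k, (C (i + (l + 2) * j + l + 1) + 1 / C (i + (l + 2) * j)) < 1)
    (x : ℕ → ℝ) (hpos : ∀ n, 0 < x n) (hx : ∀ n, x (n + l + 1) = 1 / (C n * x (n + l) + x n)) :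
    ¬ ∃ M, ∀ n, x n ≤ M := by
  rintro ⟨M, hM⟩
  have eqn : ∀ n, x (n + l + 1) * (C n * x (n + l) + x n) = 1 := fun n => by
    have := h0 n
    have := hpos n
    have := hpos (n + l)
    rw [hx]; field_simp
  have hper : Function.Periodic C k := hp
  let D : ℕ → ℝ := fun j => C (i + (l + 2) * j + l + 1) + 1 / C (i + (l + 2) * j)
  have D0 : ∀ j, 0 < D j := fun j => by
    have := h0 (i + (l + 2) * j + l + 1); have := hi j; positivity
  have Dk : Function.Periodic D k := fun j => by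
    have a := hper.nsmul (l + 2) (i + (l + 2) * j + l + 1)
    have b := hper.nsmul (l + 2) (i + (l + 2) * j)
    simp only [smul_eq_mul] at a b
    simp only [D]
    rw [show i + (l + 2) * (j + k) + l + 1 = i + (l + 2) * j + l + 1 + (l + 2) * k by ring,
      show i + (l + 2) * (j + k) = i + (l + 2) * j + (l + 2) * k by ring, a, b]
  have low : ∀ j, x (i + (l + 2) * j + l) ≤ D j * x (i + (l + 2) * (j + 1) + l) := by
    intro j
    have b0 := hi j
    simp only [D]
    rw [show i + (l + 2) * (j + 1) + l = i + (l + 2) * j + l + 1 + l + 1 by ring]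
    generalize i + (l + 2) * j = n at *
    have e0 := eqn n
    have e1 := eqn (n + l)
    have e2 := eqn (n + l + 1)
    rw [show n + l + 1 + l = n + l + l + 1 by ring] at e2 ⊢
    have c3 := h0 (n + l + 1)
    have p6 := hpos (n + l + l + 1 + 1)
    have a1 : x (n + l + 1) * x (n + l) ≤ 1 / C n := by
      rw [le_div_iff₀ b0]; nlinarith [mul_pos (hpos (n + l + 1)) (hpos n)]
    have a2 : x (n + l + l + 1) * x (n + l) ≤ 1 := by
      nlinarith [mul_nonneg (hpos (n + l + l + 1)).le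
        (mul_nonneg (h0 (n + l)) (hpos (n + l + l)).le)]
    have a3 : (C (n + l + 1) * x (n + l + l + 1) + x (n + l + 1)) * x (n + l) ≤
        C (n + l + 1) + 1 / C n := by nlinarith
    calc x (n + l) = x (n + l + l + 1 + 1) *
          ((C (n + l + 1) * x (n + l + l + 1) + x (n + l + 1)) * x (n + l)) := by
          rw [← mul_assoc, e2, one_mul]
      _ ≤ x (n + l + l + 1 + 1) * (C (n + l + 1) + 1 / C n) := by gcongr
      _ = _ := mul_comm _ _
  have blk : ∀ m t : ℕ, x (i + (l + 2) * m + l) ≤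
      (∏ j ∈ Finset.range t, D (m + j)) * x (i + (l + 2) * (m + t) + l) := by
    intro m t
    induction t with
    | zero => simp
    | succ t ih =>
      rw [Finset.prod_range_succ, mul_assoc]
      exact ih.trans (mul_le_mul_of_nonneg_left (low (m + t))
        (Finset.prod_pos fun j _ => D0 _).le)
  set P := ∏ j ∈ Finset.range k, D j with hPd
  have P0 : 0 < P := Finset.prod_pos fun j _ => D0 _
  have it : ∀ r : ℕ, x (i + l) ≤ P ^ r * x (i + (l + 2) * (r * k) + l) := by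
    intro r
    induction r with
    | zero => simp
    | succ r ih =>
      have a := blk (r * k) k
      have e : ∏ j ∈ Finset.range k, D (r * k + j) = P := Finset.prod_congr rfl fun j _ => by
        rw [add_comm]; simpa using Dk.nsmul r j
      rw [e, show r * k + k = (r + 1) * k by ring] at a
      rw [pow_succ, mul_assoc]
      exact ih.trans (mul_le_mul_of_nonneg_left a (pow_pos P0 r).le)
  have M0 : 0 < M := (hpos 0).trans_le (hM 0)
  obtain ⟨r, hr⟩ := exists_pow_lt_of_lt_one (div_pos (hpos (i + l)) M0) hP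
  rw [lt_div_iff₀ M0] at hr
  have := mul_le_mul_of_nonneg_left (hM (i + (l + 2) * (r * k) + l)) (pow_pos P0 r).le
  linarith [it r]

theorem result (l : ℕ) (hl : 0 < l) (B : ℕ → ℝ) (h0 : ∀ n, 0 ≤ B n) :
    (Even l → (∀ n, B (n + 2) = B n) → B 0 ≠ B 1 →
      ∃ x : ℕ → ℝ, (∀ n, 0 < x n) ∧ (∀ n, x (n + l + 1) = 1 / (B n * x (n + l) + x n)) ∧
        ¬ ∃ M, ∀ n, x n ≤ M) ∧
    ∀ k i : ℕ, (∀ n, B (n + k) = B n) → (∀ j, 0 < B (i + (l + 2) * j)) →
      ∏ j ∈ Finset.range k, (B (i + (l + 2) * j + l + 1) + 1 / B (i + (l + 2) * j)) < 1 →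
      ∀ x : ℕ → ℝ, (∀ n, 0 < x n) → (∀ n, x (n + l + 1) = 1 / (B n * x (n + l) + x n)) →
        ¬ ∃ M, ∀ n, x n ≤ M :=
  ⟨fun he hp hne => two l hl he B h0 hp hne, fun k i hp hi hP => prod k l B h0 hp i hi hP⟩

end Pool.Agent.Results.MP_975ca8_an.EvenDelay
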